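import Pool.Agent.Y116.UV.Graph

/-!
# Presentations by sums of monomials over rings of fractions of integers
-/

set_option autoImplicit false

open CategoryTheory AlgebraicGeometry MvPolynomial Pool.Agent.Y116.UV

namespace Pool.Agent.Z125.UN

variable {R : Type} [CommRing R]

/-- every element is a fraction of integers -/
def IsFrac (R : Type) [CommRing R] : Prop :=
  ∀ x : R, ∃ d n : ℤ, IsUnit (d : R) ∧ (d : R) * x = n

lemma frac_scale (hR : IsFrac R) {σ : Type} (g : MvPolynomial σ R) :
    ∃ u : R, IsUnit u ∧ ∀ m, ∃ w : ℤ, (w : R) = coeff m (C u * g) := by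
  classical
  choose d n hd hn using hR
  refine ⟨∏ m ∈ g.support, (d (coeff m g) : R), ?_, ?_⟩
  · exact Finset.prod_induction _ IsUnit (fun _ _ => IsUnit.mul) isUnit_one fun m _ => hd _
  · intro m
    rw [coeff_C_mul]
    by_cases hm : m ∈ g.support
    · refine ⟨(∏ m' ∈ g.support.erase m, d (coeff m' g)) * n (coeff m g), ?_⟩
      rw [← Finset.prod_erase_mul _ _ hm]
      push_cast
      rw [mul_assoc, ← hn]
    · refine ⟨0, ?_⟩
      rw [notMem_support_iff.mp hm]
      simp

/-- Over a noetherian ring in which all elements are fractions of integers, every algebra of finite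
type has a presentation by sums of monomials. -/
theorem presents_frac [IsNoetherianRing R] (hR : IsFrac R) : Presents ({0, 1} : Set R) := by
  classical
  apply presents_of
  intro A _ _ _
  obtain ⟨n, φ, G0, hs, hK0, -⟩ := presents_univ (R := R) A
  choose u hu w0 hw0 using fun g : MvPolynomial (Fin n) R => frac_scale hR g
  let G : Finset (MvPolynomial (Fin n) R) := G0.image fun g => C (u g) * g
  have hK : RingHom.ker φ = Ideal.span (G : Set (MvPolynomial (Fin n) R)) := by
    rw [hK0]
    apply le_antisymm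
    · rw [Ideal.span_le]
      intro g hg
      obtain ⟨v, hv⟩ := (hu g).exists_left_inv
      have h1 : g = C v * (C (u g) * g) := by
        rw [← mul_assoc, ← C_mul, hv, C_1, one_mul]
      have h2 : C (u g) * g ∈ Ideal.span (G : Set (MvPolynomial (Fin n) R)) :=
        Ideal.subset_span (Finset.mem_coe.mpr (Finset.mem_image_of_mem _ hg))
      have h3 := Ideal.mul_mem_left _ (C v) h2
      rw [← h1] at h3
      exact h3
    · rw [Ideal.span_le]
      intro g hg
      obtain ⟨g', hg', rfl⟩ := Finset.mem_image.mp (Finset.mem_coe.mp hg)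
      exact Ideal.mul_mem_left _ _ (Ideal.subset_span hg')
  have hw : ∀ g ∈ G, ∀ m, ∃ w : ℤ, (w : R) = coeff m g := by
    intro g hg m
    obtain ⟨g', hg', rfl⟩ := Finset.mem_image.mp hg
    exact ⟨w0 g' m, hw0 g' m⟩
  let w : (Fin n →₀ ℕ) → MvPolynomial (Fin n) R → ℤ := fun m g =>
    if h : ∃ w : ℤ, (w : R) = coeff m g then h.choose else 0
  have hw' : ∀ g ∈ G, ∀ m, ((w m g : ℤ) : R) = coeff m g := by
    intro g hg m
    have h := hw g hg m
    have h1 : w m g = h.choose := dif_pos h
    rw [h1]
    exact h.choose_spec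
  let K : ℕ := ∑ g ∈ G, ∑ m ∈ g.support, (w m g).natAbs
  let z : (Fin n →₀ ℕ) → MvPolynomial (Fin n) R → Cs K := fun m g =>
    if h : w m g ∈ Finset.Icc (-(K : ℤ)) K then ⟨_, h⟩ else zr K
  have hz : ∀ g ∈ G, ∀ m ∈ g.support, (((z m g).1 : ℤ) : R) = coeff m g := by
    intro g hg m hm
    have h1 : (w m g).natAbs ≤ ∑ m ∈ g.support, (w m g).natAbs :=
      Finset.single_le_sum (f := fun m : Fin n →₀ ℕ => (w m g).natAbs)
        (fun _ _ => Nat.zero_le _) hm
    have h2 : ∑ m ∈ g.support, (w m g).natAbs ≤ K :=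
      Finset.single_le_sum (f := fun g : MvPolynomial (Fin n) R =>
        ∑ m ∈ g.support, (w m g).natAbs) (fun _ _ => Nat.zero_le _) hg
    have h3 : w m g ∈ Finset.Icc (-(K : ℤ)) K := by
      rw [Finset.mem_Icc]
      omega
    have h4 : z m g = ⟨_, h3⟩ := dif_pos h3
    rw [h4]
    exact hw' g hg m
  refine ⟨Vs n K, inferInstance, φ.comp (sb R n K), Finset.univ.image (rel K G z), ?_, ?_, ?_⟩
  · intro a
    obtain ⟨p, rfl⟩ := hs a
    refine ⟨rename Sum.inl p, ?_⟩
    change φ (sb R n K (rename Sum.inl p)) = φ p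
    congr 1
    rw [sb, aeval_rename]
    exact aeval_X_left_apply _
  · rw [ker_sb K G z hz φ hK, rI]
    congr 1
    simp
  · intro g hg m
    obtain ⟨k, -, rfl⟩ := Finset.mem_image.mp hg
    exact coeff_ms_mem _ _

/-- Over a noetherian ring of fractions of integers the hypersurfaces of the tripartite hypergraphs
decide every property closed under closed-open decompositions. -/
theorem universal_frac [IsNoetherianRing R] (hR : IsFrac R) {sep : Prop} {P : Sch R → Prop}
    (hP : Uni sep P) (hH : ∀ (a b c : ℕ) (H : Finset (Fin a × Fin b × Fin c)), P (aff R (Trip R H)))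
    (X : Sch R) (hX : FT sep X) : P X := by
  classical
  refine universal hP (S := {0, 1}) (Or.inl rfl) (Or.inr rfl) ?_ (presents_frac hR) X hX
  intro a b c T hT
  let H : Finset (Fin a × Fin b × Fin c) := Finset.univ.filter fun h => T h.1 h.2.1 h.2.2 = 1
  have h1 : T = fun i j k => if (i, j, k) ∈ H then (1 : R) else 0 := by
    funext i j k
    have hm : (i, j, k) ∈ H ↔ T i j k = 1 := by
      rw [Finset.mem_filter]
      exact ⟨fun h => h.2, fun h => ⟨Finset.mem_univ _, h⟩⟩
    by_cases h : T i j k = 1
    · rw [if_pos (hm.mpr h), h]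
    · rw [if_neg (fun h' => h (hm.mp h'))]
      rcases hT i j k with h' | h'
      · exact h'
      · exact absurd h' h
  rw [h1]
  have h2 := hH a b c H
  unfold Trip at h2
  rw [← tri_ind] at h2
  exact h2

end Pool.Agent.Z125.UN
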