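import Pool.Agent.Z125.UN.Emb

/-!
# Schemes of dimension at most `n` and trilinear forms with `n + 2` variables in the third block
-/

set_option autoImplicit false

open CategoryTheory AlgebraicGeometry MvPolynomial Pool.Agent.Y116.UV

namespace Pool.Agent.Z125.UN

section

variable {R : Type} [CommRing R] {sep : Prop} {P : Sch R → Prop} (hP : Bnd sep P)

include hP

/-- the empty scheme -/
lemma p_empty (B : Type) [CommRing B] [Algebra R B] (hB : Subsingleton B) : P (aff R B) := by
  let A := MvPolynomial (Fin 0) R
  have h1 : P (aff R A) := hP.space 0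
  have h2 : P (aff R (Localization.Away (1 : A))) := by
    have e := IsLocalization.atUnits A (Submonoid.powers (1 : A)) (S := Localization.Away (1 : A))
      (by rintro _ ⟨n, rfl⟩; simp)
    exact iso_alg hP.toUni (e.restrictScalars R) h1
  have h3 : P (aff R (A ⧸ Ideal.span {(1 : A)})) :=
    hP.closed _ _ (ft_aff sep) (triple_away (1 : A)) h1 h2
  have h4 : Subsingleton (A ⧸ Ideal.span {(1 : A)}) :=
    Ideal.Quotient.subsingleton_iff.mpr Ideal.span_singleton_one
  let e : (A ⧸ Ideal.span {(1 : A)}) ≃ₐ[R] B :=
    AlgEquiv.ofRingEquiv (f := { toFun := fun _ => 0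
                                 invFun := fun _ => 0
                                 left_inv := fun _ => Subsingleton.elim _ _
                                 right_inv := fun _ => Subsingleton.elim _ _
                                 map_mul' := fun _ _ => Subsingleton.elim _ _
                                 map_add' := fun _ _ => Subsingleton.elim _ _ })
      (fun _ => Subsingleton.elim _ _)
  exact iso_alg hP.toUni e h3

/-- locally closed subschemes of affine spaces -/
lemma p_emb {N : ℕ} (hA : ∀ I : Ideal (MvPolynomial (Fin N) R),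
    P (aff R (MvPolynomial (Fin N) R ⧸ I))) {L : Type} [CommRing L] [Algebra R L]
    (φ : MvPolynomial (Fin N) R →ₐ[R] L) (g : MvPolynomial (Fin N) R) (hg : IsUnit (φ g))
    (hs : ∀ a, ∃ (m : ℕ) (p : MvPolynomial (Fin N) R), φ g ^ m * a = φ p) : P (aff R L) := by
  let Q := MvPolynomial (Fin N) R ⧸ RingHom.ker φ
  let ψ : Q →ₐ[R] L := Ideal.kerLiftAlg φ
  have hψ : Function.Injective ψ := Ideal.kerLiftAlg_injective φ
  let gq : Q := Ideal.Quotient.mk _ g
  have h1 : P (aff R (Localization.Away gq)) := by
    refine ring_open hP gq ?_ (hA _)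
    exact of_surj hP hA ((Ideal.Quotient.mkₐ R (Ideal.span {gq})).comp (Ideal.Quotient.mkₐ R _))
      ((Ideal.Quotient.mkₐ_surjective R _).comp (Ideal.Quotient.mkₐ_surjective R _))
  let _ : Algebra Q L := ψ.toRingHom.toAlgebra
  have hloc : IsLocalization.Away gq L := by
    have hgq : algebraMap Q L gq = φ g := rfl
    refine ⟨?_, ?_, ?_⟩
    · rintro ⟨_, n, rfl⟩
      change IsUnit (algebraMap Q L (gq ^ n))
      rw [map_pow, hgq]
      exact hg.pow n
    · intro z
      obtain ⟨m, p, h⟩ := hs z
      refine ⟨(Ideal.Quotient.mk _ p, ⟨gq ^ m, m, rfl⟩), ?_⟩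
      change z * algebraMap Q L (gq ^ m) = φ p
      rw [map_pow, hgq, ← h, mul_comm]
    · intro x y hxy
      refine ⟨1, ?_⟩
      rw [hψ hxy]
  let e : Localization.Away gq ≃ₐ[Q] L :=
    IsLocalization.algEquiv (Submonoid.powers gq) (Localization.Away gq) L
  let e2 : Localization.Away gq ≃ₐ[R] L := AlgEquiv.ofRingEquiv (f := e.toRingEquiv) (by
    intro r
    change e (algebraMap R (Localization.Away gq) r) = _
    rw [IsScalarTower.algebraMap_apply R Q (Localization.Away gq), e.commutes]
    exact ψ.commutes r)
  have : Algebra.FiniteType R (Localization.Away gq) :=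
    Algebra.FiniteType.trans (S := Q) inferInstance inferInstance
  exact iso_alg hP.toUni e2 h1

end

section field

variable {k : Type} [Field k] {sep : Prop} {P : Sch k → Prop} (hP : Bnd sep P)

include hP

/-- from affine schemes of dimension at most `n` to closed subschemes of the affine space of
dimension `n + 1` -/
lemma dim_to_closed {n : ℕ} (h : ∀ (A : Type) [CommRing A] [Algebra k A] [Algebra.FiniteType k A],
    ringKrullDim A ≤ n → P (aff k A)) (I : Ideal (MvPolynomial (Fin (n + 1)) k)) :
    P (aff k (MvPolynomial (Fin (n + 1)) k ⧸ I)) := by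
  by_cases hI : I = ⊥
  · subst hI
    exact iso_alg hP.toUni (AlgEquiv.quotientBot k _).symm (hP.space (n + 1))
  · exact h _ (dim_quot I hI)

/-- from closed subschemes of the affine space of dimension `n + 1` to affine schemes of dimension
at most `n` -/
lemma closed_to_dim [PerfectField k] {n : ℕ} (h : ∀ I : Ideal (MvPolynomial (Fin (n + 1)) k),
    P (aff k (MvPolynomial (Fin (n + 1)) k ⧸ I))) (A : Type) [CommRing A] [Algebra k A]
    [Algebra.FiniteType k A] (hA : ringKrullDim A ≤ n) : P (aff k A) := by
  refine noeth hP (fun B _ _ hB => p_empty hP B hB) fun p hp => ?_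
  have hd : ringKrullDim (A ⧸ p) ≤ n := (ringKrullDim_quotient_le p).trans hA
  obtain ⟨x, hx⟩ := exists_gens k (A ⧸ p) n hd
  obtain ⟨w, hw, φ, g, h1, h2⟩ := exists_emb x hx
  exact ⟨w, hw, p_emb hP h φ g h1 h2⟩

end field

end Pool.Agent.Z125.UN
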