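import Pool.Agent.Z125.UN.Lin

/-!
# Bilinear systems: dehomogenisation
-/

set_option autoImplicit false

open CategoryTheory AlgebraicGeometry MvPolynomial Pool.Agent.Y116.UV

namespace Pool.Agent.Z125.UN

section line

variable {R : Type} [CommRing R] {σ κ : Type} (G : κ → MvPolynomial σ R) (w : MvPolynomial σ R)

/-- the last coordinate -/
noncomputable def xs : MvPolynomial (σ ⊕ Unit) R := X (Sum.inr ())

/-- to the zero section -/
noncomputable def lineF : Pc (adj (rl G Unit) (xs (σ := σ))) (rename Sum.inl w) →ₐ[R] Pc G w :=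
  pcLift _ _ (Sum.elim (pv G w) 0)
    (by
      rintro (_ | k)
      · change aeval _ (X (Sum.inr ())) = 0
        rw [aeval_X]
        rfl
      · change aeval _ (rename Sum.inl (G k)) = 0
        rw [aeval_rename, Sum.elim_comp_inl, pc_aeval, pc_rel])
    (by
      rw [aeval_rename, Sum.elim_comp_inl, pc_aeval]
      exact pc_unit G w)

/-- from the zero section -/
noncomputable def lineG : Pc G w →ₐ[R] Pc (adj (rl G Unit) (xs (σ := σ))) (rename Sum.inl w) :=
  pcLift _ _ (fun s => pv _ _ (Sum.inl s))
    (by
      intro k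
      have h := pc_rel (adj (rl G Unit) (xs (σ := σ))) (rename Sum.inl w) (some k)
      rw [← pc_aeval] at h
      change aeval _ (rename Sum.inl (G k)) = 0 at h
      rw [aeval_rename] at h
      exact h)
    (by
      have h := pc_unit (adj (rl G Unit) (xs (σ := σ))) (rename Sum.inl w)
      rw [← pc_aeval, aeval_rename] at h
      exact h)

lemma lineF_inl (s : σ) : lineF G w (pv _ _ (Sum.inl s)) = pv G w s := pcLift_pv _ _ _ _ _ _

lemma lineF_inr (u : Unit) : lineF G w (pv _ _ (Sum.inr u)) = 0 := pcLift_pv _ _ _ _ _ _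

lemma lineG_pv (s : σ) : lineG G w (pv G w s) = pv _ _ (Sum.inl s) := pcLift_pv _ _ _ _ _ _

/-- the zero section of the affine line -/
noncomputable def lineE : Pc G w ≃ₐ[R] Pc (adj (rl G Unit) (xs (σ := σ))) (rename Sum.inl w) :=
  AlgEquiv.ofAlgHom (lineG G w) (lineF G w)
    (by
      apply pc_ext
      rintro (s | u)
      · rw [AlgHom.comp_apply, lineF_inl, lineG_pv]
        rfl
      · rw [AlgHom.comp_apply, lineF_inr, map_zero]
        exact (pc_rel (adj (rl G Unit) (xs (σ := σ))) (rename Sum.inl w) none).symm)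
    (by
      apply pc_ext
      intro s
      rw [AlgHom.comp_apply, lineG_pv, lineF_inl]
      rfl)

end line

section

variable {R : Type} [CommRing R] {sep : Prop} {P : Sch R → Prop} (hP : Bnd sep P)

include hP

/-- the product with the multiplicative group -/
lemma pc_gm {σ κ : Type} [Finite σ] {G : κ → MvPolynomial σ R} {w : MvPolynomial σ R}
    (h : P (aff R (Pc G w))) : P (aff R (Pc (rl G Unit) (rename Sum.inl w * xs))) :=
  pc_open hP (pc_poly hP Unit h) (iso_alg hP.toUni (lineE G w) h)

/-- affine spaces -/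
lemma pc_space {σ : Type} [Fintype σ] :
    P (aff R (Pc (fun k : Empty => (k.elim : MvPolynomial σ R)) 1)) := by
  have h1 : P (aff R (MvPolynomial σ R)) :=
    iso_alg hP.toUni (renameEquiv R (Fintype.equivFin σ).symm) (hP.space _)
  have h2 : Ideal.span (Set.range (fun k : Empty => (k.elim : MvPolynomial σ R))) = ⊥ := by
    rw [Set.range_eq_empty, Ideal.span_empty]
  have h3 : P (aff R (MvPolynomial σ R ⧸
      Ideal.span (Set.range (fun k : Empty => (k.elim : MvPolynomial σ R))))) := by
    rw [h2]
    exact iso_alg hP.toUni (AlgEquiv.quotientBot R (MvPolynomial σ R)).symm h1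
  exact iso_alg hP.toUni (oneE _) h3

end

section deh

variable {R : Type} [CommRing R] {α β : Type} [Fintype β] {c : ℕ}

/-- the bilinear equations -/
noncomputable def bl {γ : Type} [Fintype γ] (T : α → β → γ → R) (i : α) : MvPolynomial (β ⊕ γ) R :=
  bil β γ (T i)

lemma aeval_bl {γ : Type} [Fintype γ] (T : α → β → γ → R) (i : α) {C : Type} [CommRing C]
    [Algebra R C] (v : β ⊕ γ → C) : aeval v (bl T i) =
      ∑ j, (∑ k, algebraMap R C (T i j k) * v (Sum.inr k)) * v (Sum.inl j) := by
  rw [bl, bil_apply, map_sum]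
  apply Finset.sum_congr rfl
  intro j _
  rw [map_sum, Finset.sum_mul]
  apply Finset.sum_congr rfl
  intro k _
  rw [map_mul, map_mul, algHom_C, aeval_X, aeval_X]
  ring

variable (T : α → β → Fin (c + 1) → R)

/-- the last coordinate -/
noncomputable def zl (β : Type) (R : Type) [CommRing R] (c : ℕ) :
    MvPolynomial (β ⊕ Fin (c + 1)) R := X (Sum.inr (Fin.last c))

/-- the system without the last coordinate -/
def tl (i : α) (j : β) (k : Fin c) : R := T i j k.castSucc

/-- to the hyperplane -/
noncomputable def hypF : Pc (adj (bl T) (zl β R c)) 1 →ₐ[R] Pc (bl (tl T)) 1 :=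
  pcLift _ _ (Sum.elim (fun j => pv _ _ (Sum.inl j))
      (Fin.lastCases 0 fun k => pv (bl (tl T)) 1 (Sum.inr k)))
    (by
      rintro (_ | i)
      · change aeval _ (X (Sum.inr (Fin.last c))) = 0
        rw [aeval_X, Sum.elim_inr, Fin.lastCases_last]
      · change aeval _ (bl T i) = 0
        rw [aeval_bl]
        have h := pc_rel (bl (tl T)) 1 i
        rw [← pc_aeval, aeval_bl] at h
        refine Eq.trans ?_ h
        apply Finset.sum_congr rfl
        intro j _
        congr 1
        rw [Fin.sum_univ_castSucc, Sum.elim_inr, Fin.lastCases_last, mul_zero, add_zero]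
        apply Finset.sum_congr rfl
        intro k _
        rw [Sum.elim_inr, Fin.lastCases_castSucc]
        rfl)
    (by rw [map_one]; exact isUnit_one)

/-- from the hyperplane -/
noncomputable def hypG : Pc (bl (tl T)) 1 →ₐ[R] Pc (adj (bl T) (zl β R c)) 1 :=
  pcLift _ _ (Sum.elim (fun j => pv _ _ (Sum.inl j)) (fun k => pv _ _ (Sum.inr k.castSucc)))
    (by
      intro i
      rw [aeval_bl]
      have h := pc_rel (adj (bl T) (zl β R c)) 1 (some i)
      change pc _ _ (bl T i) = 0 at h
      have h0 := pc_rel (adj (bl T) (zl β R c)) 1 none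
      change pv _ _ (Sum.inr (Fin.last c)) = 0 at h0
      rw [← pc_aeval, aeval_bl] at h
      refine Eq.trans ?_ h
      apply Finset.sum_congr rfl
      intro j _
      congr 1
      rw [Fin.sum_univ_castSucc, h0, mul_zero, add_zero]
      rfl)
    (by rw [map_one]; exact isUnit_one)

/-- the hyperplane -/
noncomputable def hypE : Pc (bl (tl T)) 1 ≃ₐ[R] Pc (adj (bl T) (zl β R c)) 1 :=
  AlgEquiv.ofAlgHom (hypG T) (hypF T)
    (by
      apply pc_ext
      rintro (j | k)
      · have h1 : hypF T (pv _ _ (Sum.inl j)) = pv _ _ (Sum.inl j) := pcLift_pv _ _ _ _ _ _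
        have h2 : hypG T (pv _ _ (Sum.inl j)) = pv _ _ (Sum.inl j) := pcLift_pv _ _ _ _ _ _
        rw [AlgHom.comp_apply, h1, h2]
        rfl
      · refine Fin.lastCases ?_ (fun k => ?_) k
        · have h1 : hypF T (pv _ _ (Sum.inr (Fin.last c))) = 0 := by
            rw [hypF, pcLift_pv, Sum.elim_inr, Fin.lastCases_last]
          rw [AlgHom.comp_apply, h1, map_zero]
          exact (pc_rel (adj (bl T) (zl β R c)) 1 none).symm
        · have h1 : hypF T (pv _ _ (Sum.inr k.castSucc)) = pv _ _ (Sum.inr k) := by
            rw [hypF, pcLift_pv, Sum.elim_inr, Fin.lastCases_castSucc]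
          have h2 : hypG T (pv _ _ (Sum.inr k)) = pv _ _ (Sum.inr k.castSucc) :=
            pcLift_pv _ _ _ _ _ _
          rw [AlgHom.comp_apply, h1, h2]
          rfl)
    (by
      apply pc_ext
      rintro (j | k)
      · have h1 : hypF T (pv _ _ (Sum.inl j)) = pv _ _ (Sum.inl j) := pcLift_pv _ _ _ _ _ _
        have h2 : hypG T (pv _ _ (Sum.inl j)) = pv _ _ (Sum.inl j) := pcLift_pv _ _ _ _ _ _
        rw [AlgHom.comp_apply, h2, h1]
        rfl
      · have h1 : hypF T (pv _ _ (Sum.inr k.castSucc)) = pv _ _ (Sum.inr k) := by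
          rw [hypF, pcLift_pv, Sum.elim_inr, Fin.lastCases_castSucc]
        have h2 : hypG T (pv _ _ (Sum.inr k)) = pv _ _ (Sum.inr k.castSucc) :=
          pcLift_pv _ _ _ _ _ _
        rw [AlgHom.comp_apply, h2, h1]
        rfl)

/-- the matrix of the dehomogenised system -/
noncomputable def dm (i : α) (j : β) : MvPolynomial (Fin c) R :=
  C (T i j (Fin.last c)) + ∑ k : Fin c, C (T i j k.castSucc) * X k

/-- no relations -/
noncomputable def nor (c : ℕ) (k : Empty) : MvPolynomial (Fin c) R := k.elim

/-- the ring of the affine chart -/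
abbrev Ch : Type := Pc (rl (sys (nor c) (dm T)) Unit) (rename Sum.inl (rename Sum.inl 1) * xs)

/-- the ring of the open part -/
abbrev Op : Type := Pc (bl T) (1 * zl β R c)

/-- functions of the parameters on the chart -/
noncomputable def ch : MvPolynomial (Fin c) R →ₐ[R] Ch T :=
  ((pc _ _).comp (rename Sum.inl)).comp (rename Sum.inl)

/-- the coordinate of the multiplicative group -/
noncomputable def cs : Ch T := pv _ _ (Sum.inr ())

/-- the coordinates `y` -/
noncomputable def cy (j : β) : Ch T := pv _ _ (Sum.inl (Sum.inr j))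

lemma cs_unit : IsUnit (cs T) := pc_unit_right (rl (sys (nor c) (dm T)) Unit)
  (rename Sum.inl (rename Sum.inl 1)) xs

lemma ch_row (i : α) : ∑ j, ch T (dm T i j) * cy T j = 0 := by
  have h := pc_rel (rl (sys (nor c) (dm T)) Unit) (rename Sum.inl (rename Sum.inl 1) * xs)
    (Sum.inr i)
  rw [rl, sys_inr, map_sum (rename Sum.inl), map_sum (pc _ _)] at h
  refine Eq.trans ?_ h
  apply Finset.sum_congr rfl
  intro j _
  rw [map_mul (rename Sum.inl), map_mul (pc _ _), rename_X]
  rfl

lemma ch_dm (i : α) (j : β) : ch T (dm T i j) = algebraMap R _ (T i j (Fin.last c)) +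
    ∑ k : Fin c, algebraMap R _ (T i j k.castSucc) * ch T (X k) := by
  rw [dm, map_add, algHom_C, map_sum]
  congr 1
  apply Finset.sum_congr rfl
  intro k _
  rw [map_mul, algHom_C]

/-- the values of the coordinates on the chart -/
noncomputable def oa : β ⊕ Fin (c + 1) → Ch T :=
  Sum.elim (cy T) (Fin.lastCases (cs T) fun k => ch T (X k) * cs T)

lemma oa_last : oa T (Sum.inr (Fin.last c)) = cs T := by
  rw [oa, Sum.elim_inr, Fin.lastCases_last]

lemma oa_castSucc (k : Fin c) : oa T (Sum.inr k.castSucc) = ch T (X k) * cs T := by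
  rw [oa, Sum.elim_inr, Fin.lastCases_castSucc]

/-- to the chart -/
noncomputable def oL : Op T →ₐ[R] Ch T :=
  pcLift _ _ (oa T)
    (by
      intro i
      rw [aeval_bl]
      have h : ∀ j, (∑ k, algebraMap R (Ch T) (T i j k) * oa T (Sum.inr k)) * oa T (Sum.inl j) =
          cs T * (ch T (dm T i j) * cy T j) := by
        intro j
        rw [Fin.sum_univ_castSucc, oa_last, ch_dm]
        have h1 : ∀ k : Fin c, algebraMap R (Ch T) (T i j k.castSucc) *
            oa T (Sum.inr k.castSucc) =
            cs T * (algebraMap R (Ch T) (T i j k.castSucc) * ch T (X k)) := by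
          intro k
          rw [oa_castSucc]
          ring
        rw [Finset.sum_congr rfl fun k _ => h1 k, ← Finset.mul_sum]
        change _ * cy T j = _
        ring
      rw [Finset.sum_congr rfl fun j _ => h j, ← Finset.mul_sum, ch_row, mul_zero])
    (by
      rw [map_mul (aeval (oa T)), map_one (aeval (oa T)), zl, aeval_X, oa_last]
      exact isUnit_one.mul (cs_unit T))

/-- the coordinates on the open part -/
noncomputable def oz (k : Fin (c + 1)) : Op T := pv _ _ (Sum.inr k)

/-- the coordinates on the open part -/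
noncomputable def oy (j : β) : Op T := pv _ _ (Sum.inl j)

lemma oz_unit : IsUnit (oz T (Fin.last c)) := pc_unit_right (bl T) 1 (zl β R c)

/-- the inverse of the last coordinate -/
noncomputable def ou : Op T := ↑(oz_unit T).unit⁻¹

lemma ou_mul : oz T (Fin.last c) * ou T = 1 := (oz_unit T).mul_val_inv

/-- the values of the coordinates on the open part -/
noncomputable def ob : (Fin c ⊕ β) ⊕ Unit → Op T :=
  Sum.elim (Sum.elim (fun k => oz T k.castSucc * ou T) (oy T)) fun _ => oz T (Fin.last c)

/-- the parameters on the open part -/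
noncomputable def oc : MvPolynomial (Fin c) R →ₐ[R] Op T := aeval fun k => oz T k.castSucc * ou T

lemma ob_inl (p : MvPolynomial (Fin c) R) :
    aeval (ob T) (rename Sum.inl (rename Sum.inl p)) = oc T p := by
  have h : ((aeval (ob T)).comp (rename Sum.inl)).comp (rename Sum.inl) = oc T := by
    apply MvPolynomial.algHom_ext
    intro t
    rw [AlgHom.comp_apply, AlgHom.comp_apply, rename_X, rename_X, aeval_X, oc, aeval_X]
    rfl
  rw [← h]
  rfl

lemma oc_row (i : α) : ∑ j, oc T (dm T i j) * oy T j = 0 := by
  have h := pc_rel (bl T) (1 * zl β R c) i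
  rw [← pc_aeval, aeval_bl] at h
  have h1 : ∀ j, oc T (dm T i j) * oy T j = ou T *
      ((∑ k, algebraMap R (Op T) (T i j k) * oz T k) * oy T j) := by
    intro j
    rw [Fin.sum_univ_castSucc, dm, map_add, algHom_C, map_sum]
    have h2 : ∀ k : Fin c, oc T (C (T i j k.castSucc) * X k) =
        ou T * (algebraMap R (Op T) (T i j k.castSucc) * oz T k.castSucc) := by
      intro k
      rw [map_mul, algHom_C, oc, aeval_X]
      ring
    rw [Finset.sum_congr rfl fun k _ => h2 k, ← Finset.mul_sum]
    linear_combination (-algebraMap R (Op T) (T i j (Fin.last c)) * oy T j) * ou_mul T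
  rw [Finset.sum_congr rfl fun j _ => h1 j, ← Finset.mul_sum]
  have h3 : ∑ j, (∑ k, algebraMap R (Op T) (T i j k) * oz T k) * oy T j = 0 := h
  rw [h3, mul_zero]

/-- from the chart -/
noncomputable def oR : Ch T →ₐ[R] Op T :=
  pcLift _ _ (ob T)
    (by
      rintro (k | i)
      · exact k.elim
      · rw [rl, sys_inr, map_sum (rename Sum.inl), map_sum (aeval (ob T))]
        refine Eq.trans ?_ (oc_row T i)
        apply Finset.sum_congr rfl
        intro j _
        rw [map_mul (rename Sum.inl), map_mul (aeval (ob T)), ob_inl, rename_X, aeval_X]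
        rfl)
    (by
      rw [map_mul (aeval (ob T)), ob_inl, map_one (oc T), xs, aeval_X]
      exact isUnit_one.mul (oz_unit T))

lemma oL_oy (j : β) : oL T (oy T j) = cy T j := pcLift_pv _ _ _ _ _ _

lemma oL_oz (k : Fin (c + 1)) : oL T (oz T k) = oa T (Sum.inr k) := pcLift_pv _ _ _ _ _ _

lemma oR_cy (j : β) : oR T (cy T j) = oy T j := pcLift_pv _ _ _ _ _ _

lemma oR_cs : oR T (cs T) = oz T (Fin.last c) := pcLift_pv _ _ _ _ _ _

lemma ch_X (k : Fin c) : ch T (X k) = pv _ _ (Sum.inl (Sum.inl k)) := by
  rw [ch, AlgHom.comp_apply, AlgHom.comp_apply, rename_X, rename_X]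
  rfl

lemma oR_ch (k : Fin c) : oR T (ch T (X k)) = oz T k.castSucc * ou T := by
  rw [ch_X]
  exact pcLift_pv _ _ _ _ _ _

lemma oL_ou : oL T (ou T) * cs T = 1 := by
  have h := congrArg (oL T) (ou_mul T)
  rw [map_mul (oL T), map_one (oL T), oL_oz, oa_last] at h
  rw [mul_comm]
  exact h

/-- The open part is the product of the chart with the multiplicative group. -/
noncomputable def opE : Ch T ≃ₐ[R] Op T :=
  AlgEquiv.ofAlgHom (oR T) (oL T)
    (by
      apply pc_ext
      rintro (j | k)
      · change oR T (oL T (oy T j)) = oy T j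
        rw [oL_oy, oR_cy]
      · refine Fin.lastCases ?_ (fun k => ?_) k
        · change oR T (oL T (oz T (Fin.last c))) = oz T (Fin.last c)
          rw [oL_oz, oa_last, oR_cs]
        · change oR T (oL T (oz T k.castSucc)) = oz T k.castSucc
          rw [oL_oz, oa_castSucc, map_mul (oR T), oR_ch, oR_cs]
          linear_combination oz T k.castSucc * ou_mul T)
    (by
      apply pc_ext
      rintro ((k | j) | u)
      · change oL T (oR T (pv _ _ (Sum.inl (Sum.inl k)))) = pv _ _ (Sum.inl (Sum.inl k))
        rw [← ch_X, oR_ch, map_mul (oL T), oL_oz, oa_castSucc]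
        linear_combination ch T (X k) * oL_ou T
      · change oL T (oR T (cy T j)) = cy T j
        rw [oR_cy, oL_oy]
      · change oL T (oR T (cs T)) = cs T
        rw [oR_cs, oL_oz, oa_last])

end deh

section main

variable {R : Type} [CommRing R] {sep : Prop} {P : Sch R → Prop} (hP : Bnd sep P)

include hP

/-- Bilinear systems with `c` variables `z` in the second block. -/
theorem bilin {α β : Type} [Fintype α] [Fintype β] : ∀ (c : ℕ)
    (_ : ∀ c' < c, ∀ (κ : Type) (g : κ → MvPolynomial (Fin c') R) (w : MvPolynomial (Fin c') R),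
      P (aff R (Pc g w))) (T : α → β → Fin c → R), P (aff R (Pc (bl T) 1)) := by
  intro c
  induction c with
  | zero =>
    intro _ T
    refine iso_alg hP.toUni (pcSame ?_ ?_ ?_ ?_) (pc_space hP (σ := β ⊕ Fin 0))
    · exact fun k => k.elim
    · rw [map_one]
      exact isUnit_one
    · intro i
      rw [bl, bil_apply]
      simp
    · rw [map_one]
      exact isUnit_one
  | succ c ih =>
    intro h T
    refine pc_total hP (e := zl β R c) ?_ ?_
    · exact iso_alg hP.toUni (hypE T) (ih (fun c' hc' => h c' (by omega)) (tl T))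
    · refine iso_alg hP.toUni (opE T) (pc_gm hP ?_)
      exact pieces hP (h c (by omega)) _ β inferInstance rfl α inferInstance _ Empty (nor c) 1
        (dm T) le_rfl

end main

end Pool.Agent.Z125.UN
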