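import Pool.Agent.Z125.UN.RCone

/-!
# Closed subschemes of the affine space of dimension `N` and trilinear forms with `N + 1` variables
in the third block
-/

set_option autoImplicit false

open CategoryTheory AlgebraicGeometry MvPolynomial Pool.Agent.Y116.UV

namespace Pool.Agent.Z125.UN

variable {R : Type} [CommRing R] {sep : Prop} {P : Sch R → Prop} (hP : Bnd sep P)

include hP

/-- from the closed subscheme `f = 0` to the affine bundle over its complement -/
lemma to_jou {A : Type} [CommRing A] [Algebra R A] [Algebra.FiniteType R A]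
    {m : ℕ} (f : Fin m → A) (hA : P (aff R A)) (hf : P (aff R (A ⧸ Ideal.span (Set.range f)))) :
    P (aff R (Jou f)) := by
  refine hP.bundle A m f (opn (aff R A) (neOpen R f)) (opnMap (aff R A) (neOpen R f)) inferInstance
    (range_opnMap _ _) ?_
  refine hP.opened (affMap (Ideal.Quotient.mkₐ R (Ideal.span (Set.range f))))
    (opnMap (aff R A) (neOpen R f)) (ft_aff sep) ⟨closed_affMap _ (Ideal.Quotient.mkₐ_surjective R _),
      inferInstance, ?_⟩ hf hA
  rw [range_affMap _ (Ideal.Quotient.mkₐ_surjective R _), range_opnMap]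
  ext x
  change (∀ a, Ideal.Quotient.mk (Ideal.span (Set.range f)) a = 0 → a ∈ x.asIdeal) ↔
    ¬ ∃ l, f l ∉ x.asIdeal
  push Not
  constructor
  · intro h l
    exact h (f l) (Ideal.Quotient.eq_zero_iff_mem.mpr (Ideal.subset_span ⟨l, rfl⟩))
  · intro h a ha
    rw [Ideal.Quotient.eq_zero_iff_mem] at ha
    refine (Ideal.span_le.mpr ?_ : Ideal.span (Set.range f) ≤ x.asIdeal) ha
    rintro _ ⟨l, rfl⟩
    exact h l

/-- The hypersurface `T(x, y, z) = 1` and the zero set of the bilinear forms `T i`. -/
lemma hyp_iff {a : ℕ} {β γ : Type} [Fintype β] [Fintype γ] (T : Fin a → β → γ → R) :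
    P (aff R (Hyp T)) ↔ P (aff R (Pc (bl T) 1)) := by
  have hA : P (aff R (MvPolynomial (β ⊕ γ) R)) :=
    iso_alg hP.toUni (renameEquiv R (Fintype.equivFin (β ⊕ γ)).symm) (hP.space _)
  constructor
  · intro h
    exact iso_alg hP.toUni (oneE (bl T))
      (of_jou hP.toUni (bl T) hA (iso_alg hP.toUni (hypEquiv T) h))
  · intro h
    have h1 := to_jou hP (bl T) hA (iso_alg hP.toUni (oneE (bl T)).symm h)
    have h2 : Algebra.FiniteType R (Jou (bl T)) :=
      Algebra.FiniteType.trans (S := MvPolynomial (β ⊕ γ) R) inferInstance inferInstance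
    exact iso_alg hP.toUni (hypEquiv T).symm h1

lemma hyp_iff' {α β γ : Type} [Fintype α] [Fintype β] [Fintype γ] (T : α → β → γ → R) :
    P (aff R (Pc (bl fun (i : Fin (Fintype.card α)) => T ((Fintype.equivFin α).symm i)) 1)) ↔
      P (aff R (Pc (bl T) 1)) := by
  let e : Pc (bl fun (i : Fin (Fintype.card α)) => T ((Fintype.equivFin α).symm i)) 1 ≃ₐ[R]
      Pc (bl T) 1 := pcSame
    (fun k => pc_rel (bl T) 1 ((Fintype.equivFin α).symm k)) (by rw [map_one]; exact isUnit_one)
    (fun k => by
      have h := pc_rel (bl fun (i : Fin (Fintype.card α)) => T ((Fintype.equivFin α).symm i)) 1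
        (Fintype.equivFin α k)
      have h2 : bl (fun (i : Fin (Fintype.card α)) => T ((Fintype.equivFin α).symm i))
          (Fintype.equivFin α k) = bl T k := by
        change bil β γ (T ((Fintype.equivFin α).symm (Fintype.equivFin α k))) = bil β γ (T k)
        rw [Equiv.symm_apply_apply]
      rwa [h2] at h) (by rw [map_one]; exact isUnit_one)
  exact ⟨iso_alg hP.toUni e, iso_alg hP.toUni e.symm⟩

section

variable {N : ℕ} (hA : ∀ I : Ideal (MvPolynomial (Fin N) R),
  P (aff R (MvPolynomial (Fin N) R ⧸ I)))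

include hA

lemma of_surj {A : Type} [CommRing A] [Algebra R A] (φ : MvPolynomial (Fin N) R →ₐ[R] A)
    (hφ : Function.Surjective φ) : P (aff R A) :=
  iso_alg hP.toUni (Ideal.quotientKerAlgEquivOfSurjective (f := φ) hφ) (hA _)

lemma one_piece {c : ℕ} (hc : c ≤ N) (κ : Type) (g : κ → MvPolynomial (Fin c) R) :
    P (aff R (Pc g 1)) := by
  let ρ : MvPolynomial (Fin N) R →ₐ[R] MvPolynomial (Fin c) R :=
    aeval fun i => if h : i.1 < c then X ⟨i.1, h⟩ else 0
  have hρ : Function.Surjective ρ := by
    intro p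
    refine ⟨rename (Fin.castLE hc) p, ?_⟩
    change aeval _ (rename (Fin.castLE hc) p) = p
    rw [aeval_rename]
    have h : ((fun i : Fin N => if h : i.1 < c then (X ⟨i.1, h⟩ : MvPolynomial (Fin c) R) else 0) ∘
        Fin.castLE hc) = X := by
      funext i
      exact dif_pos i.2
    rw [h, aeval_X_left_apply]
  refine of_surj hP hA (((oneE g).toAlgHom.comp
    (Ideal.Quotient.mkₐ R (Ideal.span (Set.range g)))).comp ρ) ?_
  exact ((oneE g).surjective.comp (Ideal.Quotient.mkₐ_surjective R _)).comp hρ

lemma piece {c : ℕ} (hc : c ≤ N) (κ : Type) (g : κ → MvPolynomial (Fin c) R)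
    (w : MvPolynomial (Fin c) R) : P (aff R (Pc g w)) := by
  have h := pc_open hP (one_piece hP hA hc κ g) (one_piece hP hA hc (Option κ) (adj g w))
  rwa [one_mul] at h

/-- from closed subschemes of affine spaces to trilinear forms -/
theorem to_tri (a b c : ℕ) (hc : c ≤ N + 1) (T : Fin a → Fin b → Fin c → R) :
    P (aff R (Hyp T)) :=
  (hyp_iff hP T).mpr (bilin hP c (fun c' hc' κ g w => piece hP hA (by omega) κ g w) T)

end

/-- from trilinear forms to closed subschemes of affine spaces -/
theorem of_tri {N : ℕ} (hH : ∀ (a b : ℕ) (T : Fin a → Fin b → Fin (N + 1) → R),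
    P (aff R (Hyp T))) (G : Finset (MvPolynomial (Fin N) R)) :
    P (aff R (MvPolynomial (Fin N) R ⧸ Ideal.span (G : Set (MvPolynomial (Fin N) R)))) := by
  classical
  let D : ℕ := ∑ g ∈ G, ∑ m ∈ g.support, m.degree
  have hd : ∀ g ∈ G, ∀ m ∈ g.support, m.degree ≤ D := by
    intro g hg m hm
    have h1 : m.degree ≤ ∑ m ∈ g.support, m.degree :=
      Finset.single_le_sum (f := fun m : Fin N →₀ ℕ => m.degree) (fun _ _ => Nat.zero_le _) hm
    have h2 : ∑ m ∈ g.support, m.degree ≤ ∑ g ∈ G, ∑ m ∈ g.support, m.degree :=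
      Finset.single_le_sum (f := fun g : MvPolynomial (Fin N) R => ∑ m ∈ g.support, m.degree)
        (fun _ _ => Nat.zero_le _) hg
    omega
  have hB : ∀ (α β : Type) (_ : Fintype α) (_ : Fintype β) (T : α → β → Fin (N + 1) → R),
      P (aff R (Pc (bl T) 1)) := by
    intro α β _ _ T
    rw [← hyp_iff' hP, ← hyp_iff hP]
    refine iso_alg hP.toUni (hypRename (Equiv.refl _) (Fintype.equivFin β).symm (Equiv.refl _)
      fun i => T ((Fintype.equivFin α).symm i)) (hH _ _ _)
  have h1 : P (aff R (LC G D)) := by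
    refine pc_open hP (hB _ _ inferInstance inferInstance (TT G)) ?_
    rw [adj_TT]
    exact hB _ _ inferInstance inferInstance (TP G)
  have h2 : P (aff R (G2 G)) := iso_alg hP.toUni (kE G hd) h1
  have h3 := pc_torus _ _ hP (pc_torus _ _ hP h2)
  have h4 := iso_alg hP.toUni (oneE (gr G)).symm h3
  have h5 : Set.range (gr G) = (G : Set (MvPolynomial (Fin N) R)) := by
    ext x
    constructor
    · rintro ⟨g, rfl⟩
      exact g.2
    · intro hx
      exact ⟨⟨x, hx⟩, rfl⟩
  rwa [h5] at h4

/-- Let `P` be a property of schemes of finite type over the noetherian ring `R` with the closure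
properties `Bnd`. It is true for all closed subschemes of the affine space of dimension `N` if and
only if it is true for the hypersurfaces `T(x, y, z) = 1` of the trilinear forms with at most `N + 1`
variables `z`. -/
theorem graded [IsNoetherianRing R] (N : ℕ) :
    (∀ I : Ideal (MvPolynomial (Fin N) R), P (aff R (MvPolynomial (Fin N) R ⧸ I))) ↔
      ∀ (a b : ℕ) (T : Fin a → Fin b → Fin (N + 1) → R), P (aff R (Hyp T)) := by
  constructor
  · intro hA a b T
    exact to_tri hP hA a b (N + 1) le_rfl T
  · intro hH I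
    obtain ⟨G, hG⟩ := (isNoetherianRing_iff_ideal_fg _).mp
      (inferInstance : IsNoetherianRing (MvPolynomial (Fin N) R)) I
    rw [← hG]
    exact of_tri hP hH G

end Pool.Agent.Z125.UN
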