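import Mathlib

/-!
# Rings of functions on locally closed subschemes of affine spaces

`Pc G w` is the ring of functions on the subscheme `G = 0`, `w ≠ 0` of the affine space with the
coordinates `σ`.
-/

set_option autoImplicit false

open MvPolynomial

namespace Pool.Agent.Z125.UN

variable {R : Type} [CommRing R]

section

variable {σ κ : Type} (G : κ → MvPolynomial σ R) (w : MvPolynomial σ R)

/-- The ring of functions on the subscheme `G = 0`, `w ≠ 0` of the affine space. -/
def Pc : Type := Localization.Away (Ideal.Quotient.mk (Ideal.span (Set.range G)) w)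

noncomputable instance : CommRing (Pc G w) :=
  inferInstanceAs (CommRing (Localization.Away (Ideal.Quotient.mk (Ideal.span (Set.range G)) w)))

noncomputable instance : Algebra R (Pc G w) :=
  inferInstanceAs (Algebra R (Localization.Away (Ideal.Quotient.mk (Ideal.span (Set.range G)) w)))

noncomputable instance : Algebra (MvPolynomial σ R ⧸ Ideal.span (Set.range G)) (Pc G w) :=
  inferInstanceAs (Algebra _ (Localization.Away (Ideal.Quotient.mk (Ideal.span (Set.range G)) w)))

instance : IsLocalization.Away (Ideal.Quotient.mk (Ideal.span (Set.range G)) w) (Pc G w) :=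
  inferInstanceAs (IsLocalization.Away _
    (Localization.Away (Ideal.Quotient.mk (Ideal.span (Set.range G)) w)))

instance : IsScalarTower R (MvPolynomial σ R ⧸ Ideal.span (Set.range G)) (Pc G w) :=
  inferInstanceAs (IsScalarTower R (MvPolynomial σ R ⧸ Ideal.span (Set.range G))
    (Localization.Away (Ideal.Quotient.mk (Ideal.span (Set.range G)) w)))

instance [Finite σ] : Algebra.FiniteType R (Pc G w) := by
  have h : Algebra.FiniteType (MvPolynomial σ R ⧸ Ideal.span (Set.range G)) (Pc G w) :=
    inferInstanceAs (Algebra.FiniteType _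
      (Localization.Away (Ideal.Quotient.mk (Ideal.span (Set.range G)) w)))
  exact Algebra.FiniteType.trans (S := MvPolynomial σ R ⧸ Ideal.span (Set.range G)) inferInstance h

/-- the class of a polynomial -/
noncomputable def pc : MvPolynomial σ R →ₐ[R] Pc G w :=
  (IsScalarTower.toAlgHom R (MvPolynomial σ R ⧸ Ideal.span (Set.range G)) (Pc G w)).comp
    (Ideal.Quotient.mkₐ R (Ideal.span (Set.range G)))

lemma pc_apply (p : MvPolynomial σ R) : pc G w p =
    algebraMap (MvPolynomial σ R ⧸ Ideal.span (Set.range G)) (Pc G w)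
      (Ideal.Quotient.mk (Ideal.span (Set.range G)) p) := rfl

lemma pc_zero {p : MvPolynomial σ R} (hp : p ∈ Ideal.span (Set.range G)) : pc G w p = 0 := by
  rw [pc_apply, Ideal.Quotient.eq_zero_iff_mem.mpr hp, map_zero]

lemma pc_rel (k : κ) : pc G w (G k) = 0 := pc_zero G w (Ideal.subset_span ⟨k, rfl⟩)

lemma pc_unit : IsUnit (pc G w w) :=
  IsLocalization.map_units (M := Submonoid.powers (Ideal.Quotient.mk (Ideal.span (Set.range G)) w))
    (Pc G w) ⟨_, Submonoid.mem_powers _⟩

lemma pc_unit_left (e : MvPolynomial σ R) : IsUnit (pc G (w * e) w) := by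
  have h : IsUnit (pc G (w * e) w * pc G (w * e) e) := by
    rw [← map_mul]
    exact pc_unit G (w * e)
  exact isUnit_of_mul_isUnit_left h

lemma pc_unit_right (e : MvPolynomial σ R) : IsUnit (pc G (w * e) e) := by
  have h : IsUnit (pc G (w * e) w * pc G (w * e) e) := by
    rw [← map_mul]
    exact pc_unit G (w * e)
  exact isUnit_of_mul_isUnit_right h

/-- the coordinates -/
noncomputable def pv (s : σ) : Pc G w := pc G w (X s)

variable {C : Type} [CommRing C] [Algebra R C]

lemma aeval_pv_comp (f : Pc G w →ₐ[R] C) (p : MvPolynomial σ R) :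
    aeval (fun s => f (pv G w s)) p = f (pc G w p) := by
  have h : aeval (fun s => f (pv G w s)) = f.comp (pc G w) := by
    apply MvPolynomial.algHom_ext
    intro s
    rw [aeval_X]
    rfl
  rw [h]
  rfl

lemma pc_aeval (p : MvPolynomial σ R) : aeval (pv G w) p = pc G w p :=
  aeval_pv_comp G w (AlgHom.id R _) p

lemma pc_ker (v : σ → C) (h : ∀ k, aeval v (G k) = 0) (a : MvPolynomial σ R)
    (ha : a ∈ Ideal.span (Set.range G)) : aeval v a = 0 := by
  have h1 : Ideal.span (Set.range G) ≤ RingHom.ker (aeval v : MvPolynomial σ R →ₐ[R] C) := by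
    rw [Ideal.span_le]
    rintro _ ⟨k, rfl⟩
    exact h k
  exact h1 ha

/-- the homomorphism given by the values of the coordinates -/
noncomputable def pcLift (v : σ → C) (h : ∀ k, aeval v (G k) = 0) (hw : IsUnit (aeval v w)) :
    Pc G w →ₐ[R] C :=
  IsLocalization.liftAlgHom
    (M := Submonoid.powers (Ideal.Quotient.mk (Ideal.span (Set.range G)) w))
    (f := Ideal.Quotient.liftₐ (Ideal.span (Set.range G)) (aeval v) (pc_ker G v h)) (by
      rintro ⟨_, k, rfl⟩
      rw [map_pow]
      exact hw.pow k)

lemma pcLift_pc (v : σ → C) (h : ∀ k, aeval v (G k) = 0) (hw : IsUnit (aeval v w))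
    (p : MvPolynomial σ R) : pcLift G w v h hw (pc G w p) = aeval v p := by
  rw [pcLift, pc_apply, IsLocalization.liftAlgHom_apply, IsLocalization.lift_eq]
  rfl

lemma pcLift_pv (v : σ → C) (h : ∀ k, aeval v (G k) = 0) (hw : IsUnit (aeval v w)) (s : σ) :
    pcLift G w v h hw (pv G w s) = v s := by
  rw [pv, pcLift_pc, aeval_X]

variable {G w}

omit [Algebra R C] in
lemma pc_ringHom_ext {f g : Pc G w →+* C} (h0 : ∀ r, f (algebraMap R _ r) = g (algebraMap R _ r))
    (h : ∀ s, f (pv G w s) = g (pv G w s)) : f = g := by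
  apply IsLocalization.ringHom_ext
    (Submonoid.powers (Ideal.Quotient.mk (Ideal.span (Set.range G)) w))
  apply Ideal.Quotient.ringHom_ext
  apply MvPolynomial.ringHom_ext
  · intro r
    exact h0 r
  · intro s
    exact h s

lemma pc_ext {f g : Pc G w →ₐ[R] C} (h : ∀ s, f (pv G w s) = g (pv G w s)) : f = g := by
  have h1 : (f : Pc G w →+* C) = g := pc_ringHom_ext (fun r => by
    change f (algebraMap R _ r) = g (algebraMap R _ r)
    rw [AlgHom.commutes, AlgHom.commutes]) h
  apply AlgHom.ext
  intro x
  exact congrArg (fun k : Pc G w →+* C => k x) h1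

variable {σ' κ' : Type} {G' : κ' → MvPolynomial σ' R} {w' : MvPolynomial σ' R}

/-- Isomorphisms are given by the values of the coordinates. -/
noncomputable def pcEquiv (a : σ → Pc G' w') (ha : ∀ k, aeval a (G k) = 0)
    (ha' : IsUnit (aeval a w)) (b : σ' → Pc G w) (hb : ∀ k, aeval b (G' k) = 0)
    (hb' : IsUnit (aeval b w')) (h1 : ∀ s, pcLift G' w' b hb hb' (a s) = pv G w s)
    (h2 : ∀ s, pcLift G w a ha ha' (b s) = pv G' w' s) : Pc G w ≃ₐ[R] Pc G' w' :=
  AlgEquiv.ofAlgHom (pcLift G w a ha ha') (pcLift G' w' b hb hb')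
    (by
      apply pc_ext
      intro s
      rw [AlgHom.comp_apply, pcLift_pv, h2]
      rfl)
    (by
      apply pc_ext
      intro s
      rw [AlgHom.comp_apply, pcLift_pv, h1]
      rfl)

end

section

variable {σ κ : Type} (G : κ → MvPolynomial σ R) (w e : MvPolynomial σ R)

/-- one more relation -/
def adj (e : MvPolynomial σ R) (k : Option κ) : MvPolynomial σ R := k.elim e G

/-- to the closed part -/
noncomputable def cloF : Pc G w →ₐ[R] Pc (adj G e) w :=
  pcLift G w (pv (adj G e) w)
    (fun k => by rw [pc_aeval]; exact pc_rel (adj G e) w (some k))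
    (by rw [pc_aeval]; exact pc_unit _ _)

lemma cloF_pc (p : MvPolynomial σ R) : cloF G w e (pc G w p) = pc (adj G e) w p := by
  rw [cloF, pcLift_pc, pc_aeval]

lemma cloF_pv (s : σ) : cloF G w e (pv G w s) = pv (adj G e) w s := cloF_pc _ _ _ _

/-- from the closed part -/
noncomputable def cloG : Pc (adj G e) w →ₐ[R] Pc G w ⧸ Ideal.span {pc G w e} :=
  pcLift (adj G e) w (fun s => Ideal.Quotient.mkₐ R (Ideal.span {pc G w e}) (pv G w s))
    (by
      rintro (_ | k)
      · rw [aeval_pv_comp]
        exact Ideal.Quotient.eq_zero_iff_mem.mpr (Ideal.mem_span_singleton_self _)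
      · rw [aeval_pv_comp]
        change Ideal.Quotient.mkₐ R (Ideal.span {pc G w e}) (pc G w (G k)) = 0
        rw [pc_rel, map_zero])
    (by
      rw [aeval_pv_comp]
      exact (pc_unit G w).map _)

lemma cloG_pv (s : σ) : cloG G w e (pv (adj G e) w s) =
    Ideal.Quotient.mkₐ R (Ideal.span {pc G w e}) (pv G w s) := by
  rw [cloG, pcLift_pv]

/-- the closed part `e = 0` -/
noncomputable def cloE : (Pc G w ⧸ Ideal.span {pc G w e}) ≃ₐ[R] Pc (adj G e) w :=
  AlgEquiv.ofAlgHom
    (Ideal.Quotient.liftₐ (Ideal.span {pc G w e}) (cloF G w e) (by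
        intro x hx
        have h : Ideal.span {pc G w e} ≤ RingHom.ker (cloF G w e) := by
          rw [Ideal.span_le, Set.singleton_subset_iff]
          change cloF G w e (pc G w e) = 0
          rw [cloF_pc]
          exact pc_rel (adj G e) w none
        exact h hx))
    (cloG G w e)
    (by
      apply pc_ext
      intro s
      rw [AlgHom.comp_apply, cloG_pv]
      exact cloF_pv G w e s)
    (by
      apply Ideal.Quotient.algHom_ext
      apply pc_ext
      intro s
      have h : cloG G w e (cloF G w e (pv G w s)) =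
          Ideal.Quotient.mkₐ R (Ideal.span {pc G w e}) (pv G w s) := by
        rw [cloF_pv, cloG_pv]
      exact h)

/-- to the open part -/
noncomputable def opnF : Pc G w →ₐ[R] Pc G (w * e) :=
  pcLift G w (pv G (w * e)) (fun k => by rw [pc_aeval]; exact pc_rel _ _ k)
    (by rw [pc_aeval]; exact pc_unit_left G w e)

lemma opnF_pc (p : MvPolynomial σ R) : opnF G w e (pc G w p) = pc G (w * e) p := by
  rw [opnF, pcLift_pc, pc_aeval]

lemma opnF_pv (s : σ) : opnF G w e (pv G w s) = pv G (w * e) s := opnF_pc _ _ _ _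

/-- from the open part -/
noncomputable def opnG : Pc G (w * e) →ₐ[R] Localization.Away (pc G w e) :=
  pcLift G (w * e) (fun s => IsScalarTower.toAlgHom R (Pc G w) (Localization.Away (pc G w e))
      (pv G w s))
    (by
      intro k
      rw [aeval_pv_comp, pc_rel, map_zero])
    (by
      rw [aeval_pv_comp, map_mul, map_mul]
      exact ((pc_unit G w).map _).mul (IsLocalization.map_units
        (M := Submonoid.powers (pc G w e)) (Localization.Away (pc G w e))
        ⟨_, Submonoid.mem_powers _⟩))

lemma opnG_pv (s : σ) : opnG G w e (pv G (w * e) s) =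
    algebraMap (Pc G w) (Localization.Away (pc G w e)) (pv G w s) := by
  rw [opnG, pcLift_pv]
  rfl

/-- from the localization -/
noncomputable def opnH : Localization.Away (pc G w e) →ₐ[R] Pc G (w * e) :=
  IsLocalization.liftAlgHom (M := Submonoid.powers (pc G w e)) (f := opnF G w e) (by
    rintro ⟨_, k, rfl⟩
    change IsUnit (opnF G w e (pc G w e ^ k))
    rw [map_pow, opnF_pc]
    exact (pc_unit_right G w e).pow k)

lemma opnH_mk (x : Pc G w) : opnH G w e (algebraMap (Pc G w) (Localization.Away (pc G w e)) x) =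
    opnF G w e x := by
  rw [opnH, IsLocalization.liftAlgHom_apply, IsLocalization.lift_eq]
  rfl

/-- the open part `e ≠ 0` -/
noncomputable def opnE : Localization.Away (pc G w e) ≃ₐ[R] Pc G (w * e) :=
  AlgEquiv.ofAlgHom (opnH G w e) (opnG G w e)
    (by
      apply pc_ext
      intro s
      rw [AlgHom.comp_apply, opnG_pv, opnH_mk, opnF_pv]
      rfl)
    (by
      apply IsLocalization.algHom_ext (Submonoid.powers (pc G w e))
      apply pc_ext
      intro s
      change opnG G w e (opnH G w e (algebraMap _ _ (pv G w s))) = algebraMap _ _ (pv G w s)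
      rw [opnH_mk, opnF_pv, opnG_pv])

/-- without inverting -/
noncomputable def oneG : Pc G 1 →ₐ[R] MvPolynomial σ R ⧸ Ideal.span (Set.range G) :=
  pcLift G 1 (fun s => Ideal.Quotient.mkₐ R (Ideal.span (Set.range G)) (X s))
    (by
      have h : aeval (fun s => Ideal.Quotient.mkₐ R (Ideal.span (Set.range G)) (X s)) =
          Ideal.Quotient.mkₐ R (Ideal.span (Set.range G)) := by
        apply MvPolynomial.algHom_ext
        intro s
        rw [aeval_X]
      intro k
      rw [h]
      exact Ideal.Quotient.eq_zero_iff_mem.mpr (Ideal.subset_span ⟨k, rfl⟩))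
    (by rw [map_one]; exact isUnit_one)

lemma oneG_pv (s : σ) : oneG G (pv G 1 s) = Ideal.Quotient.mk _ (X s) := by
  rw [oneG, pcLift_pv]
  rfl

/-- without inverting -/
noncomputable def oneE : (MvPolynomial σ R ⧸ Ideal.span (Set.range G)) ≃ₐ[R] Pc G 1 :=
  AlgEquiv.ofAlgHom
    (Ideal.Quotient.liftₐ (Ideal.span (Set.range G)) (pc G 1) (fun _ ha => pc_zero G 1 ha))
    (oneG G)
    (by
      apply pc_ext
      intro s
      rw [AlgHom.comp_apply, oneG_pv]
      rfl)
    (by
      apply Ideal.Quotient.algHom_ext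
      apply MvPolynomial.algHom_ext
      intro s
      exact oneG_pv G s)

end

end Pool.Agent.Z125.UN
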